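import Pool.Agent.Q153.FreeTVS

/-!
For a metrizable space `X`, countable tightness of `sp_2(X)` (or of any `sp_N(X)` with `N ≥ 2`)
implies that `X` is separable, hence that `V(X)` and all `sp_n(X)` are countably tight.
-/

set_option autoImplicit false

namespace Pool.Agent.Results.MP_723ccc_gt.Tightness

open Pool.Agent.Q153.FreeTVS

/-- Let `X` be metrizable and let `V` with `i : X → V` be the free (Hausdorff) topological vector
space over `X`. If `sp_N(X)` is countably tight for some `N ≥ 2` (for instance if `sp_2(X)` is), then
`X` is separable, and `V` and all the spaces `sp_n(X)` (for instance `sp_4(X)`) are countably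
tight. -/
theorem result {X V : Type} [TopologicalSpace X] [TopologicalSpace.MetrizableSpace X]
    [AddCommGroup V] [Module ℝ V] [TopologicalSpace V] [IsTopologicalAddGroup V]
    [ContinuousSMul ℝ V] [T2Space V] {i : X → V} (hi : IsFreeTVS i) {N : ℕ} (hN : 2 ≤ N)
    (h : CountablyTight (sp i N)) :
    TopologicalSpace.SeparableSpace X ∧ CountablyTight V ∧ ∀ n, CountablyTight (sp i n) := by
  have h1 := separable_of_countablyTight hi hN h
  let _ := TopologicalSpace.metrizableSpaceMetric X
  have h2 : SecondCountableTopology X := UniformSpace.secondCountable_of_separable X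
  exact ⟨h1, countablyTight hi, fun n => countablyTight_sp hi.continuous n⟩

end Pool.Agent.Results.MP_723ccc_gt.Tightness
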